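import Mathlib
import Pool.Agent.TH717.GO.UE
import Pool.Agent.TH409.SH.Fin2

set_option autoImplicit false

/-!
# Orbits of groups of matrices on hyperbolic varieties

Let `X` be the closed subset of projective `n`-space over a number field `k` given by the forms in
`FF`, and let `σ` be an embedding of `k` in `ℂ`. For a field `K ⊇ k`, a group `H`, a representation
`ρ : H → GL_r(K)`, a matrix `M` with `n + 1` rows and `r` columns and a vector `v` over `K`, the
points of the orbit are the points with homogeneous coordinates `M ρ(h) v ≠ 0`, `h ∈ H`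
(`orb M ρ v h` is the vector `M ρ(h) v`, `orbitPts M ρ v` is the set of these points). The orbit
lies on `X` if all these vectors are zeros of the forms in `FF`.

(1) If `X_σ` is Brody (equivalently Kobayashi) hyperbolic, then `X_σ` contains no nonconstant
rational curve.

(2) The absence of nonconstant rational curves on `X_σ` is equivalent to each of the following
statements, where the orbit lies on `X`, `r` is arbitrary, and no bound depends on `X`, `k`, `n`:

* (`DegreeBound`) for ALL groups and representations over number fields `K ⊇ k` of degree at most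
  `D` over `ℚ`, the orbit has at most `∏_{f = 1}^{D} |GL_r(𝔽_{2^f})| |GL_r(𝔽_{3^f})|` points;
* (`IntegralBound`) if the entries of the matrices `ρ(h)` are `p`-integral for an odd prime `p`, then
  the orbit has at most `p ^ ([K : ℚ] r ^ 2)` points;
* (`ResidueBound`) if `ρ` takes values in `GL_r(A)` for a subring `A` of a field `K ⊇ k` that has
  homomorphisms to finite fields `F₁`, `F₂` of different characteristics, then the orbit has at most
  `|GL_r(F₁)| |GL_r(F₂)|` points;
* (`FGFinite`) if `H` is finitely generated, `K ⊇ k` any field, then the orbit is finite;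
* (`CyclicFinite`) the orbits of infinite cyclic groups over number fields are finite.
-/

namespace Pool.Agent.Results.MP_627a61_nt.MatrixGroupOrbits

open NumberField MvPolynomial Pool.Agent.H458.Sp Pool.Agent.TH717.GO

/-- uniform bound for all groups of matrices over number fields of bounded degree -/
def DegreeBound {n : ℕ} {k : Type} [Field k] (FF : Finset (MvPolynomial (Fin (n + 1)) k)) : Prop :=
  ∀ (r D : ℕ) (K : Type) [Field K] [NumberField K] [Algebra k K], Module.finrank ℚ K ≤ D →
    ∀ (H : Type) [Group H] (ρ : H →* Matrix.GeneralLinearGroup (Fin r) K)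
      (M : Matrix (Fin (n + 1)) (Fin r) K) (v : Fin r → K),
      (∀ h, ∀ F ∈ FF, aeval (orb M ρ v h) F = 0) →
      (orbitPts M ρ v).encard ≤ (∏ f ∈ Finset.Icc 1 D,
        ((∏ i ∈ Finset.range r, ((2 ^ f) ^ r - (2 ^ f) ^ i)) *
          ∏ i ∈ Finset.range r, ((3 ^ f) ^ r - (3 ^ f) ^ i)) : ℕ)

/-- bound for groups of `p`-integral matrices over number fields -/
def IntegralBound {n : ℕ} {k : Type} [Field k] (FF : Finset (MvPolynomial (Fin (n + 1)) k)) :
    Prop :=
  ∀ (r : ℕ) (K : Type) [Field K] [NumberField K] [Algebra k K] (H : Type) [Group H]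
      (ρ : H →* Matrix.GeneralLinearGroup (Fin r) K)
      (M : Matrix (Fin (n + 1)) (Fin r) K) (v : Fin r → K),
      (∀ h, ∀ F ∈ FF, aeval (orb M ρ v h) F = 0) → ∀ p : ℕ, p.Prime → 3 ≤ p →
      (∀ h i j, PInt p ((ρ h : Matrix (Fin r) (Fin r) K) i j)) →
      (orbitPts M ρ v).encard ≤ (p ^ (Module.finrank ℚ K * r ^ 2) : ℕ)

/-- bound for groups of matrices over a ring with two residue fields of different
characteristics -/
def ResidueBound {n : ℕ} {k : Type} [Field k] (FF : Finset (MvPolynomial (Fin (n + 1)) k)) :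
    Prop :=
  ∀ (r : ℕ) (K : Type) [Field K] [Algebra k K] (A : Subring K) (F₁ F₂ : Type) [Field F₁] [Field F₂]
      [Finite F₁] [Finite F₂] (_ : A →+* F₁) (_ : A →+* F₂), ringChar F₁ ≠ ringChar F₂ →
    ∀ (H : Type) [Group H] (ρ : H →* Matrix.GeneralLinearGroup (Fin r) A)
      (M : Matrix (Fin (n + 1)) (Fin r) K) (v : Fin r → K),
      (∀ h, ∀ F ∈ FF,
        aeval (orb M ((Matrix.GeneralLinearGroup.map A.subtype).comp ρ) v h) F = 0) →
      (orbitPts M ((Matrix.GeneralLinearGroup.map A.subtype).comp ρ) v).encard ≤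
        (Nat.card (Matrix.GeneralLinearGroup (Fin r) F₁) *
          Nat.card (Matrix.GeneralLinearGroup (Fin r) F₂) : ℕ)

/-- orbits of finitely generated groups are finite -/
def FGFinite {n : ℕ} {k : Type} [Field k] (FF : Finset (MvPolynomial (Fin (n + 1)) k)) : Prop :=
  ∀ (r : ℕ) (K : Type) [Field K] [Algebra k K] (H : Type) [Group H], Group.FG H →
    ∀ (ρ : H →* Matrix.GeneralLinearGroup (Fin r) K)
      (M : Matrix (Fin (n + 1)) (Fin r) K) (v : Fin r → K),
      (∀ h, ∀ F ∈ FF, aeval (orb M ρ v h) F = 0) → (orbitPts M ρ v).Finite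

/-- orbits of infinite cyclic groups over number fields are finite -/
def CyclicFinite {n : ℕ} {k : Type} [Field k] (FF : Finset (MvPolynomial (Fin (n + 1)) k)) : Prop :=
  ∀ (r : ℕ) (K : Type) [Field K] [NumberField K] [Algebra k K]
      (ρ : Multiplicative ℤ →* Matrix.GeneralLinearGroup (Fin r) K)
      (M : Matrix (Fin (n + 1)) (Fin r) K) (v : Fin r → K),
      (∀ h, ∀ F ∈ FF, aeval (orb M ρ v h) F = 0) → (orbitPts M ρ v).Finite

theorem result (k : Type) [Field k] [NumberField k] (n : ℕ)
    (FF : Finset (MvPolynomial (Fin (n + 1)) k)) (hhom : ∀ F ∈ FF, ∃ e, F.IsHomogeneous e)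
    (σ : k →+* ℂ) :
    (BrodyHyperbolic ((MvPolynomial.map σ) '' (FF : Set (MvPolynomial (Fin (n + 1)) k))) →
      NoRatC σ (FF : Set (MvPolynomial (Fin (n + 1)) k))) ∧
    List.TFAE [NoRatC σ (FF : Set (MvPolynomial (Fin (n + 1)) k)), DegreeBound FF,
      IntegralBound FF, ResidueBound FF, FGFinite FF, CyclicFinite FF] := by
  refine ⟨fun hyp => ?_, ?_⟩
  · intro q hq i j a b
    refine Pool.Agent.TH409.SH.no_curveC' _ ?_ hyp q ?_ i j a b
    · rintro _ ⟨F, hF, rfl⟩
      obtain ⟨e, he⟩ := hhom F hF
      exact ⟨e, he.map _⟩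
    · rintro _ ⟨F, hF, rfl⟩
      rw [aeval_def, MvPolynomial.eval₂_map]
      exact hq F hF
  · have hcyc : CyclicFinite FF → NoRatC σ (FF : Set (MvPolynomial (Fin (n + 1)) k)) := by
      intro hf
      by_contra hno
      obtain ⟨r, K, iK, iN, iA, ρ, M, v, -, hX, hinf⟩ := converse_noRat σ _ hno
      exact hinf (hf r K ρ M v hX)
    tfae_have 1 → 2 := by
      intro hno r D K _ _ _ hD H _ ρ M v hX
      rw [orbitPts_eq (k := k)]
      exact uni_core (FF : Set (MvPolynomial (Fin (n + 1)) k)) hhom 1
        ⟨0, MvPolynomial.isHomogeneous_one _ _⟩ (noRat_all σ _ hno (r * r))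
        (specDeg_of_numberField K D hD) ρ M v hX
    tfae_have 1 → 3 := by
      intro hno r K _ _ _ H _ ρ M v hX p hp hp3 hρ
      rw [orbitPts_eq (k := k)]
      exact main_core FF hhom 1 r (noRat_all σ _ hno (r * r)) K p hp hp3 H ρ hρ M v hX
    tfae_have 1 → 4 := by
      intro hno r K _ _ A F₁ F₂ _ _ _ _ φ₁ φ₂ hne H _ ρ M v hX
      rw [orbitPts_eq (k := k)]
      exact two_core (FF : Set (MvPolynomial (Fin (n + 1)) k)) hhom 1 (noRat_all σ _ hno (r * r)) A
        φ₁ φ₂ hne ρ M v hX
    tfae_have 4 → 5 := by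
      intro hres r K _ _ H _ hH ρ M v hX
      have : CharZero K := charZero_of_injective_algebraMap (FaithfulSMul.algebraMap_injective k K)
      rw [orbitPts_eq (k := k)]
      refine finite_of_res (FF : Set (MvPolynomial (Fin (n + 1)) k)) 1 M v ?_ hH ρ hX
      intro A F₁ F₂ _ _ _ _ φ₁ φ₂ hne ρ hX
      have h1 := hres r K A F₁ F₂ φ₁ φ₂ hne H ρ M v hX
      rw [orbitPts_eq (k := k)] at h1
      exact h1
    tfae_have 5 → 6 := by
      intro hfg r K _ _ _ ρ M v hX
      exact hfg r K (Multiplicative ℤ) inferInstance ρ M v hX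
    tfae_have 2 → 6 := by
      intro hb r K _ _ _ ρ M v hX
      exact Set.finite_of_encard_le_coe (hb r _ K le_rfl (Multiplicative ℤ) ρ M v hX)
    tfae_have 3 → 6 := by
      intro hb r K _ _ _ ρ M v hX
      obtain ⟨p, hp, hp3, hρ⟩ := exists_prime_of_fg (inferInstance : Group.FG (Multiplicative ℤ)) ρ
      exact Set.finite_of_encard_le_coe (hb r K (Multiplicative ℤ) ρ M v hX p hp hp3 hρ)
    tfae_have 6 → 1 := hcyc
    tfae_finish

end Pool.Agent.Results.MP_627a61_nt.MatrixGroupOrbits
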